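import Pool.Agent.Helper18.PB2.Goals

/-!
# MP_b9cb57_an, packet BC: almost every point is good (Borel-Cantelli)
-/

set_option autoImplicit false

open MeasureTheory Measure Filter Topology
open scoped Pointwise

namespace Pool.Agent.Helper49.PB2

open Pool.Agent.Helper18.PB Pool.Agent.Helper18.PB2

/-- the bad set -/
def Bad {n : ℕ} (K : Set ℝ) (a : ℝ → Eu n) (m : ℕ) : Set (Eu n) :=
  {x | ‖x‖ ≤ 1 ∧ ∃ t ∈ K, |inner ℝ (a t) x| ≤ ‖x‖ / ((m : ℝ) + 1)}

theorem bad_closed {n : ℕ} {K : Set ℝ} (hK : IsCompact K) {a : ℝ → Eu n} (ha : Continuous a)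
    (m : ℕ) : IsClosed (Bad K a m) := by
  have hc : IsCompact ((K ×ˢ Metric.closedBall (0 : Eu n) 1) ∩
      {p : ℝ × Eu n | |inner ℝ (a p.1) p.2| ≤ ‖p.2‖ / ((m : ℝ) + 1)}) := by
    apply (hK.prod (isCompact_closedBall _ _)).inter_right
    apply isClosed_le
    · exact ((ha.comp continuous_fst).inner continuous_snd).abs
    · exact continuous_snd.norm.div_const _
  have he : Bad K a m = Prod.snd '' ((K ×ˢ Metric.closedBall (0 : Eu n) 1) ∩
      {p : ℝ × Eu n | |inner ℝ (a p.1) p.2| ≤ ‖p.2‖ / ((m : ℝ) + 1)}) := by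
    ext x
    constructor
    · rintro ⟨h1, t, ht, h2⟩
      exact ⟨(t, x), ⟨⟨ht, by simpa using h1⟩, h2⟩, rfl⟩
    · rintro ⟨⟨t, y⟩, ⟨⟨ht, hy⟩, h2⟩, rfl⟩
      exact ⟨by simpa using hy, t, ht, h2⟩
  rw [he]
  exact (hc.image continuous_snd).isClosed

theorem bad_anti {n : ℕ} (K : Set ℝ) (a : ℝ → Eu n) : Antitone (Bad K a) := by
  intro m m' hm x hx
  obtain ⟨h1, t, ht, h2⟩ := hx
  refine ⟨h1, t, ht, h2.trans ?_⟩
  have : (m : ℝ) ≤ m' := by exact_mod_cast hm
  apply div_le_div_of_nonneg_left (norm_nonneg _) (by positivity)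
  linarith

theorem bad_inter {n : ℕ} {K : Set ℝ} (hK : IsCompact K) (hne : K.Nonempty) {a : ℝ → Eu n}
    (ha : Continuous a) : (⋂ m, Bad K a m) ⊆ {x | ∃ t ∈ K, inner ℝ (a t) x = 0} := by
  intro x hx
  obtain ⟨t0, ht0, hmin⟩ := hK.exists_isMinOn hne
    (((ha.inner continuous_const).abs).continuousOn : ContinuousOn (fun t => |inner ℝ (a t) x|) K)
  refine ⟨t0, ht0, ?_⟩
  have hle : ∀ m : ℕ, |inner ℝ (a t0) x| ≤ ‖x‖ / ((m : ℝ) + 1) := by
    intro m
    obtain ⟨-, t, ht, h2⟩ := Set.mem_iInter.mp hx m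
    exact (hmin ht).trans h2
  have hlim : Tendsto (fun m : ℕ => ‖x‖ / ((m : ℝ) + 1)) atTop (𝓝 0) := by
    apply Tendsto.const_div_atTop
    exact tendsto_atTop_add_const_right _ _ tendsto_natCast_atTop_atTop
  have h0 : |inner ℝ (a t0) x| ≤ 0 := ge_of_tendsto' hlim hle
  exact abs_nonpos_iff.mp h0

theorem good_smul {n : ℕ} {K : Set ℝ} {α : ℕ → ℝ → Eu n} {δ : ℕ → ℝ} {x : Eu n} {c : ℝ}
    (hc : 0 < c) (h : Good K α δ x) : Good K α δ (c • x) := by
  obtain ⟨h1, k0, h2⟩ := h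
  refine ⟨fun k => ?_, k0, fun k hk t ht => ?_⟩
  · obtain ⟨r, hr, hrt⟩ := h1 k
    refine ⟨c * r, by positivity, fun t ht => ?_⟩
    rw [inner_smul_right, abs_mul, abs_of_pos hc]
    exact mul_le_mul_of_nonneg_left (hrt t ht) hc.le
  · rw [inner_smul_right, abs_mul, abs_of_pos hc, norm_smul, Real.norm_eq_abs, abs_of_pos hc]
    have := mul_le_mul_of_nonneg_left (h2 k hk t ht) hc.le
    linarith

theorem bc : HBC := by
  intro n K α hK hα hZ
  rcases K.eq_empty_or_nonempty with hemp | hne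
  · refine ⟨fun _ => 1, fun _ => ⟨one_pos, le_rfl⟩, ?_⟩
    have : {x : Eu n | ¬ Good K α (fun _ => 1) x} = ∅ := by
      ext x
      simp only [Set.mem_ofPred_eq, Set.mem_empty_iff_false, iff_false, not_not]
      refine ⟨fun k => ⟨1, one_pos, ?_⟩, 0, ?_⟩
      · intro t ht
        rw [hemp] at ht
        exact absurd ht (Set.notMem_empty t)
      · intro k _ t ht
        rw [hemp] at ht
        exact absurd ht (Set.notMem_empty t)
    rw [this, measure_empty]
  -- choice of `m_k`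
  have hex : ∀ k : ℕ, ∃ m : ℕ, volume (Bad K (α k) m) ≤ (2⁻¹ : ENNReal) ^ k := by
    intro k
    have h1 : Tendsto (volume ∘ Bad K (α k)) atTop (𝓝 (volume (⋂ m, Bad K (α k) m))) := by
      apply tendsto_measure_iInter_atTop
      · exact fun m => (bad_closed hK (hα k) m).measurableSet.nullMeasurableSet
      · exact bad_anti K (α k)
      · refine ⟨0, ne_of_lt ?_⟩
        refine lt_of_le_of_lt (measure_mono (t := Metric.closedBall (0 : Eu n) 1) ?_)
          (measure_closedBall_lt_top)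
        intro x hx
        simpa using hx.1
    have h2 : volume (⋂ m, Bad K (α k) m) = 0 :=
      measure_mono_null (bad_inter hK hne (hα k)) (hZ k)
    rw [h2] at h1
    have h3 : (0 : ENNReal) < (2⁻¹ : ENNReal) ^ k := by
      apply ENNReal.pow_pos
      simp
    obtain ⟨m, hm⟩ := (h1.eventually_lt_const h3).exists
    exact ⟨m, hm.le⟩
  choose mk hmk using hex
  have hsum : (∑' k, volume (Bad K (α k) (mk k))) ≠ ⊤ := by
    refine ne_top_of_le_ne_top ?_ (ENNReal.tsum_le_tsum hmk)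
    rw [ENNReal.tsum_geometric]
    simp
  have hBC := ae_eventually_notMem hsum
  refine ⟨fun k => 1 / ((mk k : ℝ) + 1), fun k => ⟨by positivity, ?_⟩, ?_⟩
  · rw [div_le_one (by positivity)]
    have : (0 : ℝ) ≤ mk k := by positivity
    linarith
  -- non-good points of the unit ball
  have hball : volume ({x : Eu n | ¬ Good K α (fun k => 1 / ((mk k : ℝ) + 1)) x}
      ∩ Metric.closedBall 0 1) = 0 := by
    have hae1 : ∀ᵐ x : Eu n ∂volume, ∀ k, ¬ ∃ t ∈ K, inner ℝ (α k t) x = 0 := by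
      rw [ae_all_iff]
      intro k
      rw [ae_iff]
      simp only [not_not]
      exact hZ k
    have hae : ∀ᵐ x : Eu n ∂volume,
        x ∉ {x : Eu n | ¬ Good K α (fun k => 1 / ((mk k : ℝ) + 1)) x} ∩ Metric.closedBall 0 1 := by
      filter_upwards [hBC, hae1] with x hx1 hx2
      rintro ⟨hbad, hxb⟩
      apply hbad
      refine ⟨fun k => ?_, ?_⟩
      · obtain ⟨t0, ht0, hmin⟩ := hK.exists_isMinOn hne
          ((((hα k).inner continuous_const).abs).continuousOn :
            ContinuousOn (fun t => |inner ℝ (α k t) x|) K)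
        refine ⟨|inner ℝ (α k t0) x|, ?_, fun t ht => hmin ht⟩
        apply abs_pos.mpr
        intro h0
        exact hx2 k ⟨t0, ht0, h0⟩
      · obtain ⟨k0, hk0⟩ := eventually_atTop.mp hx1
        refine ⟨k0, fun k hk t ht => ?_⟩
        by_contra hcon
        push Not at hcon
        apply hk0 k hk
        refine ⟨by simpa using hxb, t, ht, ?_⟩
        refine hcon.le.trans (le_of_eq ?_)
        ring
    exact (measure_eq_zero_iff_ae_notMem).mpr hae
  -- scaling
  have hcov : {x : Eu n | ¬ Good K α (fun k => 1 / ((mk k : ℝ) + 1)) x}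
      ⊆ ⋃ m : ℕ, ((m : ℝ) + 1) • ({x : Eu n | ¬ Good K α (fun k => 1 / ((mk k : ℝ) + 1)) x}
      ∩ Metric.closedBall 0 1) := by
    intro x hx
    obtain ⟨m, hm⟩ := exists_nat_ge ‖x‖
    have hp : (0 : ℝ) < (m : ℝ) + 1 := by positivity
    refine Set.mem_iUnion.mpr ⟨m, ?_⟩
    rw [Set.mem_smul_set_iff_inv_smul_mem₀ hp.ne']
    refine ⟨?_, ?_⟩
    · intro hg
      apply hx
      have := good_smul hp hg
      rwa [smul_inv_smul₀ hp.ne'] at this
    · rw [mem_closedBall_zero_iff, norm_smul, norm_inv, Real.norm_eq_abs, abs_of_pos hp,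
        inv_mul_le_iff₀ hp]
      linarith
  refine measure_mono_null hcov ?_
  rw [measure_iUnion_null_iff]
  intro m
  rw [addHaar_smul, hball, mul_zero]

end Pool.Agent.Helper49.PB2
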